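import Pool.Agent.W23.KI.Defs
import Pool.Agent.W976.KS.BX0K

/-!
KI project, task BX0I (helper351): the Bessel inequality for the sifting indicator of systems of
`k` linear forms on the integers (adapted from `Pool/Agent/W976/KS/BX0K.lean`).
-/

namespace Pool.Agent.W351.KI

open Finset Filter
open Pool.Agent.H442R2
open Pool.Agent.H442R2.KF
open Pool.Agent.W23.DC
open Pool.Agent.W23.SG
open Pool.Agent.W23.PL
open Pool.Agent.W23.KT
open Pool.Agent.W23.KS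
open Pool.Agent.W23.KI
open Pool.Agent.W976.KS.TaskBX0K

theorem BX0I (hLAM : St_LAM) (hFLWK : St_FLWK) (hCORK : St_CORK) (hVLBK : St_VLBK)
    (hGS : BX.St_GS) : St_BX0I := by
  intro k M hk hM A₀ hA₀
  obtain ⟨εs, hεs, hflw⟩ := hFLWK k hk (1 / 40) (A₀ + 30) (by norm_num) (by linarith)
  obtain ⟨c₂, hc₂, hvlb⟩ := hVLBK k hk
  obtain ⟨C, e₀, Nc, hC, hcor⟩ := hCORK k M hk hM
  refine ⟨e₀ + 2 * k + 10, min εs 1, lt_min hεs one_pos, ?_⟩
  intro ε₁ hε₁ hε₁s B hB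
  have hε1 : ε₁ ≤ 1 := hε₁s.trans (min_le_right _ _)
  obtain ⟨Nf, hNf⟩ := hflw ε₁ hε₁ (hε₁s.trans (min_le_left _ _)) B (by omega)
  obtain ⟨Nv, hNv⟩ := hvlb M B (by omega) ε₁ hε₁ hε1
  set ρ : ℝ := Real.exp (-((A₀ + 30) / ε₁)) with hρ
  have hρ0 : 0 < ρ := Real.exp_pos _
  have hρ1 : ρ ≤ 1 := by
    rw [hρ]
    apply Real.exp_le_one_iff.2
    have : 0 ≤ (A₀ + 30) / ε₁ := by positivity
    linarith
  have hρA : 1000000000 * ρ ≤ Real.exp (-(A₀ / ε₁)) := by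
    have h1 : ρ = Real.exp (-(A₀ / ε₁)) * Real.exp (-(30 / ε₁)) := by
      rw [hρ, ← Real.exp_add]
      congr 1
      ring
    have h2 : Real.exp (-(30 / ε₁)) ≤ Real.exp (-30) := by
      apply Real.exp_le_exp.2
      have : 30 ≤ 30 / ε₁ := by
        rw [le_div_iff₀ hε₁]
        linarith
      linarith
    have h3 : 1000000000 * Real.exp (-30) ≤ 1 := by
      have h4 : (1000000000 : ℝ) ≤ Real.exp 30 := by
        have h5 : Real.exp 30 = Real.exp 1 ^ 30 := by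
          rw [← Real.exp_nat_mul]; norm_num
        rw [h5]
        calc (1000000000 : ℝ) ≤ 2.7 ^ 30 := by norm_num
          _ ≤ Real.exp 1 ^ 30 := pow_le_pow_left₀ (by norm_num)
            (by linarith [Real.exp_one_gt_d9]) 30
      have h6 : Real.exp 30 * Real.exp (-30) = 1 := by rw [← Real.exp_add]; simp
      have h7 := Real.exp_pos (-30)
      nlinarith
    rw [h1]
    have h8 := Real.exp_pos (-(A₀ / ε₁))
    calc 1000000000 * (Real.exp (-(A₀ / ε₁)) * Real.exp (-(30 / ε₁)))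
        = Real.exp (-(A₀ / ε₁)) * (1000000000 * Real.exp (-(30 / ε₁))) := by ring
      _ ≤ Real.exp (-(A₀ / ε₁)) * 1 := by
          apply mul_le_mul_of_nonneg_left _ h8.le
          linarith
      _ = _ := mul_one _
  -- large N
  have hev : ∀ᶠ N : ℕ in atTop, (2 : ℝ) ≤ (N : ℝ) ^ (1 / 80 : ℝ) ∧ 2 ≤ Real.log N ∧
      Real.log N ^ (2 * k + 6) ≤ N ∧ 16 * C / ρ + 4 / ρ ≤ Real.log N ∧
      1 / c₂ + 1 ≤ Real.log (Real.log N) ∧ (k : ℝ) ≤ Real.log N := by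
    have hcast := tendsto_natCast_atTop_atTop (R := ℝ)
    have t1 := ((tendsto_rpow_atTop (show (0 : ℝ) < 1 / 80 by norm_num)).comp
      hcast).eventually_ge_atTop 2
    have tl := Real.tendsto_log_atTop.comp hcast
    have t2 := tl.eventually_ge_atTop 2
    have t3 : ∀ᶠ x : ℝ in atTop, Real.log x ^ (2 * k + 6) ≤ x := by
      have h := (Real.isLittleO_pow_log_id_atTop (n := 2 * k + 6)).bound (c := 1) one_pos
      filter_upwards [h, eventually_ge_atTop 1] with x hx hx1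
      rw [one_mul, Real.norm_eq_abs, Real.norm_eq_abs] at hx
      have h2 : |id x| = x := abs_of_nonneg (by simp; linarith)
      rw [h2] at hx
      exact (le_abs_self _).trans hx
    have t3' := hcast.eventually t3
    have t4 := tl.eventually_ge_atTop (16 * C / ρ + 4 / ρ)
    have t5 := (Real.tendsto_log_atTop.comp tl).eventually_ge_atTop (1 / c₂ + 1)
    have t6 := tl.eventually_ge_atTop (k : ℝ)
    filter_upwards [t1, t2, t3', t4, t5, t6] with N h1 h2 h3 h4 h5 h6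
    exact ⟨h1, h2, h3, h4, h5, h6⟩
  obtain ⟨Ne, hNe⟩ := eventually_atTop.1 hev
  refine ⟨1000000000, Nc + Nf + Nv + Ne + 2, by norm_num, ?_⟩
  intro N hN f hf 𝒜 h𝒜 hdis
  obtain ⟨hg2, hL2, hL6, hLK, hLc, hLk⟩ := hNe N (by omega)
  have hN2 : 2 ≤ N := by omega
  have hNr : (2 : ℝ) ≤ N := by exact_mod_cast hN2
  have hN0 : (0 : ℝ) < N := by linarith
  have hN1 : (1 : ℝ) ≤ N := by linarith
  set L := Real.log N with hLdef
  have hL0 : 0 < L := by linarith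
  have hL1 : 1 ≤ L := by linarith
  set y : ℝ := L ^ B with hy
  have hLy : L ≤ y := by
    calc L = L ^ 1 := (pow_one _).symm
      _ ≤ L ^ B := pow_le_pow_right₀ hL1 (by omega)
  have hy2 : 2 ≤ y := hL2.trans hLy
  have hky : (k : ℝ) ≤ y := hLk.trans hLy
  have hP1 : ∀ p ∈ P1 N B ε₁, p.Prime ∧ y ≤ (p : ℝ) := by
    intro p hp
    unfold P1 at hp
    rw [mem_filter] at hp
    exact ⟨hp.2.1, hp.2.2.1⟩
  have hPs : ∀ S, PK N B ε₁ S ⊆ P1 N B ε₁ := fun S p hp => by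
    unfold PK at hp
    exact (@Finset.mem_filter _ _ (_) _ _).1 hp |>.1
  have hPK : ∀ S, ∀ p ∈ PK N B ε₁ S, p.Prime ∧ y ≤ (p : ℝ) ∧ gp S p := by
    intro S p hp
    have h1 := hP1 p (hPs S hp)
    unfold PK at hp
    exact ⟨h1.1, h1.2, ((@Finset.mem_filter _ _ (_) _ _).1 hp).2⟩
  set V := Vk k (P1 N B ε₁) with hVdef
  have hrange : ∀ P : Finset ℕ, P ⊆ P1 N B ε₁ → 0 ≤ Vk k P ∧ Vk k P ≤ 1 := by
    intro P hP
    refine Vk_range fun p hp => ?_
    have h1 := (hP1 p (hP hp)).2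
    exact ⟨by linarith, by linarith⟩
  obtain ⟨hV0, hV1⟩ := hrange (P1 N B ε₁) (Subset.refl _)
  rw [← hVdef] at hV0 hV1
  obtain ⟨hNv1, -, hNv3⟩ := hNv N (by omega)
  rw [← hVdef] at hNv1 hNv3
  have hVL : 1 / L ^ k ≤ V := by
    refine le_trans ?_ hNv1
    have h0 : 0 < 1 / c₂ := by positivity
    have h2 : 1 ≤ c₂ * Real.log L := by
      have h9 : 1 / c₂ ≤ Real.log L := by linarith
      rw [div_le_iff₀ hc₂] at h9
      linarith
    have h3 : (1 : ℝ) ≤ B := by exact_mod_cast (by omega : 1 ≤ B)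
    have h10 : 1 ≤ Real.log L := by linarith
    have h11 : Real.log L / L ≤ B * Real.log L / (ε₁ * L) := by
      rw [div_le_div_iff₀ hL0 (by positivity)]
      have h5 : ε₁ * L ≤ 1 * L := mul_le_mul_of_nonneg_right hε1 hL0.le
      have h6 : Real.log L * (ε₁ * L) ≤ Real.log L * (1 * L) :=
        mul_le_mul_of_nonneg_left h5 (by linarith)
      have h7 : 1 * (Real.log L * L) ≤ B * (Real.log L * L) :=
        mul_le_mul_of_nonneg_right h3 (by positivity)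
      linarith
    have h12 : (Real.log L / L) ^ k ≤ (B * Real.log L / (ε₁ * L)) ^ k :=
      pow_le_pow_left₀ (by positivity) h11 k
    have h13 : Real.log L ≤ Real.log L ^ k := by
      calc Real.log L = Real.log L ^ 1 := (pow_one _).symm
        _ ≤ Real.log L ^ k := pow_le_pow_right₀ h10 hk
    have h14 : 1 ≤ c₂ * Real.log L ^ k := h2.trans (mul_le_mul_of_nonneg_left h13 hc₂.le)
    calc 1 / L ^ k ≤ (c₂ * Real.log L ^ k) / L ^ k := by
          apply div_le_div_of_nonneg_right h14 (by positivity)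
      _ = c₂ * (Real.log L / L) ^ k := by rw [div_pow]; ring
      _ ≤ _ := mul_le_mul_of_nonneg_left h12 hc₂.le
  rcases 𝒜.eq_empty_or_nonempty with h𝒜e | ⟨S₀, hS₀⟩
  · rw [h𝒜e, sum_empty]
    apply mul_nonneg (sq_nonneg _)
    rw [card_empty]
    have := Real.exp_pos (-(A₀ / ε₁))
    have h1 : (0 : ℝ) ≤ 1000000000 * V := by linarith
    simp only [Nat.cast_zero, mul_zero, add_zero]
    exact h1
  -- the sieve
  obtain ⟨D, hD⟩ : ∃ D : ℕ, D = ⌊(N : ℝ) ^ (1 / 40 : ℝ)⌋₊ := ⟨_, rfl⟩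
  have hflwS : ∀ S : Finset (ℤ × ℕ), ∃ th dl : ℕ → ℝ,
      DW (PK N B ε₁ S) D L th ∧ DW (PK N B ε₁ S) D L dl ∧
      (∀ m : ℤ, xx (PK N B ε₁ S) m ≤ Ev th D m ∧ Ev th D m - xx (PK N B ε₁ S) m ≤ Ev dl D m) ∧
      |hatk k th D - Vk k (PK N B ε₁ S)| ≤ ρ * Vk k (PK N B ε₁ S) ∧
      |hatk k dl D| ≤ ρ * Vk k (PK N B ε₁ S) :=
    fun S => hNf N (by omega) D hD (PK N B ε₁ S) (hPs S)
  choose th dl hth hdl hsand hhat hhatd using hflwS
  set VS : Finset (ℤ × ℕ) → ℝ := fun S => Vk k (PK N B ε₁ S) with hVS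
  have hVS0 : ∀ S, 0 ≤ VS S := fun S => (hrange _ (hPs S)).1
  have hVS1 : ∀ S, VS S ≤ 1 := fun S => (hrange _ (hPs S)).2
  have hVS2 : ∀ S ∈ 𝒜, VS S ≤ 2 * V := fun S hS => (hNv3 S (h𝒜 S hS).sys).2
  have hgg : (N : ℝ) ^ (1 / 40 : ℝ) = (N : ℝ) ^ (1 / 80 : ℝ) * (N : ℝ) ^ (1 / 80 : ℝ) := by
    rw [← Real.rpow_add hN0]; norm_num
  have hD1 : (D : ℝ) ≤ (N : ℝ) ^ (1 / 40 : ℝ) := by
    rw [hD]; exact Nat.floor_le (Real.rpow_nonneg hN0.le _)
  have hDg : (N : ℝ) ^ (1 / 80 : ℝ) ≤ D := by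
    have hz2 : (N : ℝ) ^ (1 / 40 : ℝ) < D + 1 := by
      rw [hD]; exact Nat.lt_floor_add_one _
    rw [hgg] at hz2
    nlinarith
  have hD2 : 2 ≤ D := by
    have : (2 : ℝ) ≤ D := hg2.trans hDg
    exact_mod_cast this
  have hD20 : (D : ℝ) ≤ (N : ℝ) ^ (1 / 20 : ℝ) :=
    hD1.trans (Real.rpow_le_rpow_of_exponent_le hN1 (by norm_num))
  obtain ⟨hlam, hnu, hLF1⟩ := hLAM
  have hz20 : ((2 : ℕ) : ℝ) ≤ (N : ℝ) ^ (1 / 20 : ℝ) :=
    (by exact_mod_cast hg2 : ((2 : ℕ) : ℝ) ≤ (N : ℝ) ^ (1 / 80 : ℝ)).trans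
      (Real.rpow_le_rpow_of_exponent_le hN1 (by norm_num))
  set w : ℤ → ℝ := fun n => Wt N n * BX.nuS lam1 2 n with hwdef
  have hw : Summable w := BX.TaskBK.summ_w (by omega) hlam.sw
  have hw0 : ∀ n, 0 ≤ w n := fun n => BX.TaskBK.w_nonneg N 2 lam1 n
  set T : ℝ := N * LF lam1 2 with hT
  set E : ℝ := C * L ^ 2 * (N * L ^ e₀ / y + 1) with hE
  have hE0 : 0 ≤ E := by positivity
  obtain ⟨hErr, hSmall⟩ := err_le (x := (N : ℝ)) (y := y) (k := k) (e := e₀) hC hρ0 hL2 hL6 hLK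
    hVL hB hy
  rw [← hE] at hErr
  have hQ0 : 0 < (N : ℝ) / L := by positivity
  -- correlations
  have cor : ∀ S ∈ 𝒜, ∀ S' ∈ 𝒜, S ≠ S' → ∀ u u' : ℕ → ℝ, DW (PK N B ε₁ S) D L u →
      DW (PK N B ε₁ S') D L u' →
      |∑' n : ℤ, w n * (Ev u D (Fp S n) * Ev u' D (Fp S' n)) - T * (hatk k u D * hatk k u' D)| ≤ E :=
    fun S hS S' hS' hne u u' hu hu' =>
      (hcor N (by omega) 2 D hz20 (by omega) hD20 lam1 hlam S (h𝒜 S hS) (PK N B ε₁ S) y hy2 hky
        (hPK S) L u hL1 hu).1 S' (h𝒜 S' hS') (hdis S hS S' hS' hne) (PK N B ε₁ S') (hPK S') u' hu'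
  have cor1 : ∀ S ∈ 𝒜, ∀ u : ℕ → ℝ, DW (PK N B ε₁ S) D L u →
      |∑' n : ℤ, w n * Ev u D (Fp S n) - T * hatk k u D| ≤ E :=
    fun S hS u hu =>
      (hcor N (by omega) 2 D hz20 (by omega) hD20 lam1 hlam S (h𝒜 S hS) (PK N B ε₁ S) y hy2 hky
        (hPK S) L u hL1 hu).2
  have cor00 : |∑' n : ℤ, w n * 1 - T| ≤ E := by
    have h := cor1 S₀ hS₀ th1 (dw_th1 (by omega) hL1)
    simp only [Ev_th1 (show 1 ≤ D by omega), hatk_th1 (k := k) (show 1 ≤ D by omega),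
      mul_one] at h
    simpa using h
  -- size of T
  have hNL : (N : ℝ) / L ≤ N := div_le_self hN0.le hL1
  have hEV : 8 * E ≤ V * N := by
    refine hErr.trans ?_
    have h1 : ρ * V ^ 2 ≤ V := by
      calc ρ * V ^ 2 ≤ 1 * V ^ 2 := by gcongr
        _ = V * V := by ring
        _ ≤ V * 1 := mul_le_mul_of_nonneg_left hV1 hV0
        _ = V := mul_one _
    exact mul_le_mul h1 hNL hQ0.le hV0
  have hErr' : 8 * E ≤ ρ * V ^ 2 * N :=
    hErr.trans (mul_le_mul_of_nonneg_left hNL (by positivity))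
  have hEN : E ≤ N := by
    have : V * (N : ℝ) ≤ 1 * N := by gcongr
    linarith
  have hTabs : |T| ≤ N := by
    rw [hT, hLF1, mul_one, abs_of_nonneg hN0.le]
  -- the functions
  set r : Finset (ℤ × ℕ) → ℤ → ℝ := fun S n => xx (PK N B ε₁ S) (Fp S n) - VS S with hr
  set G : ℝ := 7 * (V * N) with hG
  set O : ℝ := 29 * (ρ * V ^ 2 * N) with hO
  have hG0 : 0 ≤ G := by positivity
  have hO0 : 0 ≤ O := by positivity
  have hdiag : ∀ S ∈ 𝒜, ∑' n : ℤ, w n * (r S n * r S n) ≤ G := by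
    intro S hS
    have h := core_diag hw hw0 (x := fun n => xx (PK N B ε₁ S) (Fp S n))
      (Θ := fun n => Ev (th S) D (Fp S n))
      (T := T) (M := hatk k (th S) D) (V := VS S) (ρ := ρ) (E := E) (fun n => xx_nonneg _ _)
      (fun n => xx_le_one _ _) (fun n => (hsand S _).1) (Bd_Ev (th S) D _)
      (cor1 S hS (th S) (hth S)) cor00 (hhat S) hρ1 (hVS0 S) (hVS1 S)
    refine h.trans ?_
    have h2 : |T| * VS S ≤ N * (2 * V) :=
      mul_le_mul hTabs (hVS2 S hS) (hVS0 S) (by positivity)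
    rw [hG]
    nlinarith
  have hoff : ∀ S ∈ 𝒜, ∀ S' ∈ 𝒜, S ≠ S' → |∑' n : ℤ, w n * (r S n * r S' n)| ≤ O := by
    intro S hS S' hS' hne
    have h := core_off hw hw0 (x := fun n => xx (PK N B ε₁ S) (Fp S n))
      (x' := fun n => xx (PK N B ε₁ S') (Fp S' n))
      (Θ := fun n => Ev (th S) D (Fp S n)) (Θ' := fun n => Ev (th S') D (Fp S' n))
      (Δ := fun n => Ev (dl S) D (Fp S n)) (Δ' := fun n => Ev (dl S') D (Fp S' n))
      (T := T) (M := hatk k (th S) D) (M' := hatk k (th S') D) (md := hatk k (dl S) D)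
      (md' := hatk k (dl S') D) (V := VS S) (V' := VS S') (ρ := ρ) (E := E)
      (fun n => xx_nonneg _ _) (fun n => xx_le_one _ _) (fun n => (hsand S _).1)
      (fun n => (hsand S _).2)
      (fun n => xx_nonneg _ _) (fun n => xx_le_one _ _) (fun n => (hsand S' _).1)
      (fun n => (hsand S' _).2) (Bd_Ev _ D _) (Bd_Ev _ D _) (Bd_Ev _ D _) (Bd_Ev _ D _)
      (cor S hS S' hS' hne _ _ (hth S) (hth S')) (cor S hS S' hS' hne _ _ (hdl S) (hth S'))
      (cor S hS S' hS' hne _ _ (hth S) (hdl S'))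
      (cor1 S hS _ (hth S)) (cor1 S' hS' _ (hth S'))
      (cor1 S hS _ (hdl S)) (cor1 S' hS' _ (hdl S'))
      cor00 (hhat S) (hhatd S) (hhat S') (hhatd S') hρ0.le hρ1 (hVS0 S) (hVS1 S) (hVS0 S')
      (hVS1 S')
    refine h.trans ?_
    have h3 : VS S * VS S' ≤ (2 * V) * (2 * V) :=
      mul_le_mul (hVS2 S hS) (hVS2 S' hS') (hVS0 S') (by positivity)
    have h4 : ρ * (VS S * VS S') ≤ ρ * (4 * V ^ 2) := by
      apply mul_le_mul_of_nonneg_left _ hρ0.le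
      linarith
    have h2 : |T| * (ρ * (VS S * VS S')) ≤ N * (ρ * (4 * V ^ 2)) :=
      mul_le_mul hTabs h4 (mul_nonneg hρ0.le (mul_nonneg (hVS0 S) (hVS0 S'))) (by positivity)
    rw [hO]
    linarith
  have hw25 : ∀ p ∈ Icc 1 N, (1 : ℝ) ≤ 25 * w (p : ℤ) := by
    intro p hp
    rw [mem_Icc] at hp
    rw [hwdef]
    simp only
    rw [hnu, mul_one]
    unfold Wt
    have h0 : 0 ≤ ((p : ℤ) : ℝ) / N := by positivity
    have h1 : ((p : ℤ) : ℝ) / N ≤ 1 := by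
      rw [div_le_one hN0]
      push_cast
      exact_mod_cast hp.2
    have h2 : (((p : ℤ) : ℝ) / N) ^ 2 ≤ 1 := pow_le_one₀ h0 h1
    have h3 : Real.exp (-Real.pi) ≤ Real.exp (-Real.pi * (((p : ℤ) : ℝ) / N) ^ 2) := by
      apply Real.exp_le_exp.2
      nlinarith [Real.pi_pos]
    linarith [BX.TaskBK.exp_neg_pi]
  have bxx : ∀ S : Finset (ℤ × ℕ), Bd (fun n => xx (PK N B ε₁ S) (Fp S n)) := fun S =>
    ⟨1, fun n => by rw [abs_of_nonneg (xx_nonneg _ _)]; exact xx_le_one _ _⟩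
  have hdu := W74.SG.DUg.du w hw0 (Icc 1 N) hw25 𝒜 r f
    (fun S _ S' _ => summ hw hw0 (((bxx S).sub (Bd.const (VS S))).mul
      ((bxx S').sub (Bd.const (VS S')))))
    G O hdiag hG0 hO0 hoff
  have hFs : ∑ p ∈ Icc 1 N, f p ^ 2 ≤ N := by
    calc ∑ p ∈ Icc 1 N, f p ^ 2 ≤ ∑ p ∈ Icc 1 N, (1 : ℝ) := by
          refine sum_le_sum fun p _ => ?_
          rw [← sq_abs]
          exact pow_le_one₀ (abs_nonneg _) (hf p)
      _ = N := by rw [sum_const, Nat.card_Icc]; simp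
  have hc0 : (0 : ℝ) ≤ 𝒜.card := Nat.cast_nonneg _
  set c := (𝒜.card : ℝ) with hc
  calc ∑ S ∈ 𝒜, (∑ p ∈ Icc 1 N,
        f p * (xx (PK N B ε₁ S) (Fp S p) - VS S)) ^ 2
      ≤ 25 * N * (G + c * O) := by
        refine hdu.trans ?_
        have : 0 ≤ G + c * O := by positivity
        apply mul_le_mul_of_nonneg_right _ this
        linarith
    _ = (N : ℝ) ^ 2 * (175 * V + 725 * ρ * (V ^ 2 * c)) := by
        rw [hG, hO]; ring
    _ ≤ (N : ℝ) ^ 2 * (1000000000 * V + Real.exp (-(A₀ / ε₁)) * V ^ 2 * c) := by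
        apply mul_le_mul_of_nonneg_left _ (by positivity)
        have h1 : 725 * ρ * (V ^ 2 * c) ≤ Real.exp (-(A₀ / ε₁)) * (V ^ 2 * c) := by
          apply mul_le_mul_of_nonneg_right _ (by positivity)
          linarith
        have h2 : 175 * V ≤ 1000000000 * V := by linarith
        linarith

end Pool.Agent.W351.KI
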